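import Mathlib
import Pool.Agent.Helper240.Amen.HB

namespace Pool.Agent.Results.MP_529953_al.WreathDisproof

open RegularWreathProduct

/-- Amenability of a discrete group: existence of a finitely additive probability measure on all
subsets which is invariant under left translations. -/
def Amenable (G : Type) [Group G] : Prop :=
  ∃ m : Set G → ℝ, (∀ A, 0 ≤ m A) ∧ m Set.univ = 1 ∧
    (∀ A B, Disjoint A B → m (A ∪ B) = m A + m B) ∧ ∀ (g : G) (A : Set G), m ((g * ·) '' A) = m A

/-- The ring `R` contains a direct sum of `n` nonzero right ideals. -/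
def HasDirectSum (R : Type*) [Ring R] (n : ℕ) : Prop :=
  ∃ I : Fin n → Submodule Rᵐᵒᵖ R, (∀ j, I j ≠ ⊥) ∧ iSupIndep I

section core

variable {k : Type*} [Field k] {P : Type} [Group P]

/-- The group `ℤ ≀ P` (unrestricted regular wreath product). -/
abbrev W (P : Type) [Group P] : Type := RegularWreathProduct (Multiplicative ℤ) P

/-- The base group. -/
abbrev Bs (P : Type) : Type := P → Multiplicative ℤ

/-- Inclusion of the base group. -/
def base : Bs P →* W P where
  toFun f := ⟨f, 1⟩
  map_one' := rfl
  map_mul' f g := by ext <;> simp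

/-- The ring homomorphism induced by the inclusion of the base. -/
noncomputable def iota : MonoidAlgebra k (Bs P) →+* MonoidAlgebra k (W P) :=
  MonoidAlgebra.mapDomainRingHom k base

lemma iota_single (f : Bs P) (a : k) :
    iota (MonoidAlgebra.single f a) = MonoidAlgebra.single (base f) a := by
  simp [iota]

/-- The component of an element of the group algebra in the coset of `q`. -/
noncomputable def comp (q : P) : MonoidAlgebra k (W P) →+ MonoidAlgebra k (Bs P) :=
  MonoidAlgebra.comapDomainAddMonoidHom (fun f : Bs P => (⟨f, q⟩ : W P))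
    (by intro f g h; simpa using h)

lemma comp_coeff (q : P) (s : MonoidAlgebra k (W P)) (f : Bs P) :
    (comp q s).coeff f = s.coeff ⟨f, q⟩ := rfl

lemma comp_iota_mul (q : P) (c : MonoidAlgebra k (Bs P)) (s : MonoidAlgebra k (W P)) :
    comp q (iota c * s) = c * comp q s := by
  induction c using MonoidAlgebra.induction_linear with
  | zero => simp
  | add x y hx hy => rw [map_add, add_mul, map_add, hx, hy, add_mul]
  | single f a =>
    ext f'
    rw [comp_coeff, iota_single,
      MonoidAlgebra.coeff_single_mul_eq_mul_coeff (m₂ := (⟨f⁻¹ * f', q⟩ : W P)),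
      MonoidAlgebra.coeff_single_mul_eq_mul_coeff (m₂ := f⁻¹ * f'), comp_coeff]
    · intro m' _
      constructor
      · rintro rfl; simp
      · rintro rfl; simp
    · intro m' _
      constructor
      · intro h
        have h1 : base f * m' = base f * (⟨f⁻¹ * f', q⟩ : W P) := by
          rw [h]
          ext <;> simp [base]
        exact mul_left_cancel h1
      · rintro rfl
        ext <;> simp [base]

/-- The group algebra of `ℤ ≀ P` is torsion-free over the group algebra of the base. -/
lemma torsionFree (c : MonoidAlgebra k (Bs P)) (hc : c ≠ 0) (s : MonoidAlgebra k (W P))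
    (h : iota c * s = 0) : s = 0 := by
  ext g
  obtain ⟨f, q⟩ := g
  have h1 := comp_iota_mul q c s
  rw [h, map_zero] at h1
  have h2 : comp q s = 0 := (mul_eq_zero.mp h1.symm).resolve_left hc
  rw [← comp_coeff, h2]
  simp


/-- The element `x_h` of the base group. -/
noncomputable def bx (h : P) : Bs P := by
  classical exact Pi.mulSingle h (Multiplicative.ofAdd 1)

/-- The element `t_g` of the group algebra. -/
noncomputable def tt (g : P) : MonoidAlgebra k (W P) := MonoidAlgebra.single (inl g) 1

/-- The element `x_h` of the group algebra of the base. -/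
noncomputable def xx (h : P) : MonoidAlgebra k (Bs P) := MonoidAlgebra.single (bx h) 1

lemma inl_mul_base (g h : P) : (inl g : W P) * base (bx h) = base (bx (g * h)) * inl g := by
  classical
  ext x
  · simp only [base, inl, bx, MonoidHom.coe_mk, OneHom.coe_mk, mul_left, Pi.mul_apply,
      Pi.one_apply, one_mul]
    by_cases hx : x = g * h
    · subst hx; simp
    · have h1 : g⁻¹ * x ≠ h := by rintro rfl; exact hx (by simp)
      simp [Pi.mulSingle_eq_of_ne hx, Pi.mulSingle_eq_of_ne h1]
  · simp [base]

lemma tt_mul_iota (g h : P) :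
    (tt g : MonoidAlgebra k (W P)) * iota (xx h) = iota (xx (g * h)) * tt g := by
  rw [tt, xx, iota_single, MonoidAlgebra.single_mul_single, inl_mul_base, xx, iota_single,
    MonoidAlgebra.single_mul_single]

variable (H : Subgroup P) [Fintype H]

/-- The norm element of the finite subgroup `H`. -/
noncomputable def NN : MonoidAlgebra k (W P) := ∑ g : H, tt (g : P)

lemma tt_mul_NN (g : H) : (tt (g : P) : MonoidAlgebra k (W P)) * NN H = NN H := by
  rw [NN, Finset.mul_sum]
  refine Fintype.sum_equiv (Equiv.mulLeft g) _ _ (fun x => ?_)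
  simp [tt, MonoidAlgebra.single_mul_single, ← map_mul]

/-- The matrix of the translates. -/
noncomputable def BB : Matrix H H (MonoidAlgebra k (Bs P)) :=
  Matrix.of fun g h => xx ((g : P)⁻¹ * (h : P))

lemma bx_apply_one (h : P) [Decidable (h = 1)] :
    Multiplicative.toAdd (bx h (1 : P)) = if h = 1 then 1 else 0 := by
  classical
  by_cases hh : h = 1
  · subst hh; simp [bx]
  · rw [if_neg hh, bx, Pi.mulSingle_eq_of_ne (Ne.symm hh)]
    rfl

lemma perm_eq_one (σ : Equiv.Perm H)
    (h : ∏ g : H, bx (((σ g : H) : P)⁻¹ * (g : P)) = ∏ _g : H, bx (1 : P)) : σ = 1 := by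
  classical
  have h1 := congrArg (fun f : Bs P => Multiplicative.toAdd (f 1)) h
  simp only [Finset.prod_apply, toAdd_prod, bx_apply_one] at h1
  have h2 : ∀ g ∈ (Finset.univ : Finset H),
      (if ((σ g : H) : P)⁻¹ * (g : P) = 1 then (1 : ℤ) else 0) ≤ if True then 1 else 0 := by
    intro g _
    split_ifs <;> simp_all
  have h3 := (Finset.sum_eq_sum_iff_of_le h2).mp h1
  ext g
  have h4 := h3 g (Finset.mem_univ _)
  by_cases h5 : ((σ g : H) : P)⁻¹ * (g : P) = 1
  · have := eq_of_inv_mul_eq_one h5
    simpa using this
  · rw [if_neg h5] at h4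
    simp at h4

omit [Group P] in
lemma prod_single {ι : Type*} (s : Finset ι) (f : ι → Bs P) :
    ∏ i ∈ s, (MonoidAlgebra.single (f i) (1 : k)) = MonoidAlgebra.single (∏ i ∈ s, f i) 1 := by
  have : ∀ b : Bs P, MonoidAlgebra.single b (1 : k) = MonoidAlgebra.of k (Bs P) b := fun _ => rfl
  simp only [this, map_prod]

lemma det_ne_zero [DecidableEq H] :
    (BB H : Matrix H H (MonoidAlgebra k (Bs P))).det ≠ 0 := by
  classical
  intro hdet
  have hc : ((BB H : Matrix H H (MonoidAlgebra k (Bs P))).det).coeff (∏ _g : H, bx (1 : P)) = 0 := by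
    rw [hdet]; simp
  rw [Matrix.det_apply] at hc
  have h1 : ∀ σ : Equiv.Perm H, (Equiv.Perm.sign σ • ∏ g : H,
      (BB H : Matrix H H (MonoidAlgebra k (Bs P))) (σ g) g).coeff (∏ _g : H, bx (1 : P)) =
      if σ = 1 then (1 : k) else 0 := by
    intro σ
    have h2 : ∏ g : H, (BB H : Matrix H H (MonoidAlgebra k (Bs P))) (σ g) g =
        MonoidAlgebra.single (∏ g : H, bx (((σ g : H) : P)⁻¹ * (g : P))) 1 := by
      rw [← prod_single]
      rfl
    rw [h2]
    by_cases hσ : σ = 1
    · subst hσ
      simp
    · rw [if_neg hσ]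
      have h3 : ∏ g : H, bx (((σ g : H) : P)⁻¹ * (g : P)) ≠ ∏ _g : H, bx (1 : P) :=
        fun h => hσ (perm_eq_one H σ h)
      simp only [MonoidAlgebra.coeff_smul, MonoidAlgebra.coeff_single, Finsupp.smul_apply,
        Finsupp.single_apply, if_neg h3, smul_zero]
  rw [MonoidAlgebra.coeff_sum] at hc
  simp only [Finsupp.coe_finsetSum, Finset.sum_apply, h1] at hc
  simp at hc

/-- The core computation. -/
lemma indep (r : H → MonoidAlgebra k (W P))
    (h0 : ∑ h : H, iota (xx (h : P)) * NN H * r h = 0) (h : H) : NN H * r h = 0 := by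
  classical
  have h1 : ∀ g : H, ∑ h : H, iota ((BB H : Matrix H H (MonoidAlgebra k (Bs P))) g h) *
      (NN H * r h) = 0 := by
    intro g
    have := congrArg (fun z => tt ((g : P)⁻¹) * z) h0
    simp only [mul_zero, Finset.mul_sum] at this
    rw [← this]
    refine Finset.sum_congr rfl fun h _ => ?_
    have h2 : (tt ((g : P)⁻¹) : MonoidAlgebra k (W P)) * NN H = NN H := tt_mul_NN H g⁻¹
    rw [BB, Matrix.of_apply, ← mul_assoc (tt _), ← mul_assoc (tt _), tt_mul_iota,
      mul_assoc _ (tt _), h2, mul_assoc]
  have h3 : iota ((BB H : Matrix H H (MonoidAlgebra k (Bs P))).det) * (NN H * r h) = 0 := by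
    have h4 : ∑ g : H, iota ((BB H : Matrix H H (MonoidAlgebra k (Bs P))).adjugate h g) *
        (∑ h' : H, iota ((BB H : Matrix H H (MonoidAlgebra k (Bs P))) g h') *
          (NN H * r h')) = 0 := by
      simp [h1]
    rw [← h4]
    simp only [Finset.mul_sum, ← mul_assoc, ← map_mul]
    rw [Finset.sum_comm]
    have h5 : ∀ h' : H, ∑ g : H, iota ((BB H : Matrix H H (MonoidAlgebra k (Bs P))).adjugate h g *
        (BB H) g h') * NN H * r h' = (if h = h' then iota (BB H).det else 0) * NN H * r h' := by
      intro h'
      rw [← Finset.sum_mul, ← Finset.sum_mul, ← map_sum, ← Matrix.mul_apply,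
        Matrix.adjugate_mul, Matrix.smul_apply, Matrix.one_apply]
      split_ifs <;> simp
    rw [Finset.sum_congr rfl (fun h' _ => h5 h')]
    simp [mul_assoc]
  exact torsionFree _ (det_ne_zero H) _ h3

lemma NN_ne_zero : (NN H : MonoidAlgebra k (W P)) ≠ 0 := by
  classical
  intro h
  have h1 : (NN H : MonoidAlgebra k (W P)).coeff 1 = 0 := by rw [h]; simp
  have h2 : ∀ g : H, (tt (g : P) : MonoidAlgebra k (W P)).coeff 1 =
      if g = 1 then (1 : k) else 0 := by
    intro g
    rw [tt, MonoidAlgebra.coeff_single, Finsupp.single_apply]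
    have : (inl (g : P) : W P) = 1 ↔ g = 1 := by
      constructor
      · intro h
        have := congrArg RegularWreathProduct.right h
        simpa using this
      · rintro rfl; simp
    simp only [this]
  rw [NN, MonoidAlgebra.coeff_sum] at h1
  simp only [Finsupp.coe_finsetSum, Finset.sum_apply, h2] at h1
  simp at h1

/-- The right ideal generated by `x_h N`. -/
noncomputable def II (h : H) : Submodule (MonoidAlgebra k (W P))ᵐᵒᵖ (MonoidAlgebra k (W P)) :=
  Submodule.span _ {iota (xx (h : P)) * NN H}

lemma II_ne_bot (h : H) : (II H h : Submodule (MonoidAlgebra k (W P))ᵐᵒᵖ _) ≠ ⊥ := by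
  intro h0
  rw [II, Submodule.span_singleton_eq_bot] at h0
  exact NN_ne_zero H (torsionFree _ (by simp [xx]) _ h0)

lemma II_indep : iSupIndep (fun h : H => (II H h : Submodule (MonoidAlgebra k (W P))ᵐᵒᵖ _)) := by
  classical
  rw [iSupIndep_iff_finsetSum_eq_zero_imp_eq_zero]
  intro s v hv hsum i hi
  have hr : ∀ h : H, ∃ r : MonoidAlgebra k (W P), h ∈ s → v h = iota (xx (h : P)) * NN H * r := by
    intro h
    by_cases hs : h ∈ s
    · have := hv h hs
      rw [II, Submodule.mem_span_singleton] at this
      obtain ⟨c, hc⟩ := this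
      exact ⟨c.unop, fun _ => hc.symm⟩
    · exact ⟨0, fun h => absurd h hs⟩
  choose r hr using hr
  have h1 := indep H (fun h => if h ∈ s then r h else 0) (by
    refine Eq.trans ?_ hsum
    symm
    apply Finset.sum_subset_zero_on_sdiff (Finset.subset_univ s)
    · intro h hs
      rw [if_neg (Finset.mem_sdiff.mp hs).2, mul_zero]
    · intro h hs
      rw [if_pos hs, hr h hs]) i
  simp only [if_pos hi] at h1
  rw [hr i hi, mul_assoc, h1, mul_zero]

end core

section final

lemma hasDirectSum (k : Type*) [Field k] (P : Type) [CommGroup P] [Infinite P]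
    (hP : ∀ x : P, IsOfFinOrder x) (n : ℕ) : HasDirectSum (MonoidAlgebra k (W P)) n := by
  classical
  obtain ⟨s, hs⟩ := Infinite.exists_subset_card_eq P n
  have hfin : Finite (Subgroup.closure (s : Set P)) := by
    have : Group.FG (Subgroup.closure (s : Set P)) := Group.closure_finset_fg s
    apply CommGroup.finite_of_fg_isMulTorsion
    intro x
    exact Submonoid.isOfFinOrder_coe.mp (hP x)
  have : Fintype (Subgroup.closure (s : Set P)) := Fintype.ofFinite _
  let v : Fin n → Subgroup.closure (s : Set P) := fun j =>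
    ⟨((s.equivFinOfCardEq hs).symm j : P), Subgroup.subset_closure (by simp)⟩
  have hv : Function.Injective v := by
    intro i j hij
    have : (((s.equivFinOfCardEq hs).symm i : s) : P) = ((s.equivFinOfCardEq hs).symm j : s) := by
      have h2 : (v i : P) = v j := by rw [hij]
      exact h2
    exact (s.equivFinOfCardEq hs).symm.injective (Subtype.ext this)
  exact ⟨fun j => II (Subgroup.closure (s : Set P)) (v j), fun j => II_ne_bot _ _,
    (II_indep (Subgroup.closure (s : Set P))).comp hv⟩

/-- The elementary abelian `p`-group `∏_{ℕ} ℤ/p`. -/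
abbrev PP (p : ℕ) : Type := ℕ → Multiplicative (ZMod p)

lemma PP_pow (p : ℕ) (x : PP p) : x ^ p = 1 := by
  ext i
  change (Multiplicative.toAdd ((x i) ^ p)) = 0
  rw [toAdd_pow]
  simp

instance W_solvable (P : Type) [CommGroup P] : Group.IsSolvable (W P) := by
  refine Group.isSolvable_of_ker_le_range (base : Bs P →* W P) (rightHom : W P →* P) ?_
  intro x hx
  rw [MonoidHom.mem_ker] at hx
  refine ⟨x.left, ?_⟩
  ext
  · rfl
  · simpa [base] using hx.symm

lemma eq_one_of_pow (p : ℕ) [Fact p.Prime] (x : W (PP p)) (n : ℕ) (hn : 0 < n) (hpn : ¬ p ∣ n)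
    (hx : x ^ n = 1) : x = 1 := by
  have h1 : x.right ^ n = 1 := by
    have := congrArg (rightHom : W (PP p) →* PP p) hx
    rwa [map_pow, map_one] at this
  have h2 : x.right = 1 := by
    have hcop : Nat.Coprime p n := (Nat.Prime.coprime_iff_not_dvd Fact.out).mpr hpn
    have := pow_gcd_eq_one.mpr ⟨PP_pow p x.right, h1⟩
    rwa [hcop, pow_one] at this
  have h3 : x = base x.left := by
    ext
    · rfl
    · simp [base, h2]
  have h4 : (x.left) ^ n = 1 := by
    rw [h3, ← map_pow] at hx
    exact congrArg RegularWreathProduct.left hx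
  have h5 : x.left = 1 := by
    ext q
    have := congrArg (fun f => Multiplicative.toAdd (f q)) h4
    simp only [Pi.pow_apply, toAdd_pow, Pi.one_apply, toAdd_one, smul_eq_zero] at this
    rcases this with h | h
    · omega
    · simpa using h
  rw [h3, h5, map_one]

/-- For every prime `p` there is an amenable group `G` all of whose finite subgroups of order
prime to `p` are trivial, such that for every field `k` (in particular for every field of
characteristic `p`) the group algebra `k G` has infinite uniform dimension. -/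
theorem result (p : ℕ) [Fact p.Prime] : ∃ (G : Type) (_ : Group G),
    Group.IsSolvable G ∧ Amenable G ∧
    (∀ F : Subgroup G, Finite F → ¬ p ∣ Nat.card F → Nat.card F ≤ 1) ∧
    ∀ (k : Type*) [Field k] (n : ℕ), HasDirectSum (MonoidAlgebra k G) n := by
  refine ⟨W (PP p), inferInstance, inferInstance, ?_, ?_, ?_⟩
  · exact Pool.Agent.Helper240.Amen.amenable_of_solvable (W (PP p)) inferInstance
  · intro F hF hp
    have : F = ⊥ := by
      rw [Subgroup.eq_bot_iff_forall]
      intro x hx
      apply eq_one_of_pow p x (Nat.card F) Nat.card_pos hp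
      have := pow_card_eq_one' (x := (⟨x, hx⟩ : F))
      exact congrArg Subtype.val this
    rw [this]
    simp
  · intro k _ n
    have : Nontrivial (Multiplicative (ZMod p)) := inferInstance
    exact hasDirectSum k (PP p) (fun x => isOfFinOrder_iff_pow_eq_one.mpr
      ⟨p, (Fact.out : p.Prime).pos, PP_pow p x⟩) n

end final

end Pool.Agent.Results.MP_529953_al.WreathDisproof
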